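import Pool.Agent.Q97.UM.Stm13

set_option autoImplicit false

/-! Job UM6-LAT of helper97: an almost periodic sequence has no Fourier mass at frequencies which are
not integers. -/

namespace Pool.Agent.Q92.UM6

open Pool.Agent.Q97.UM
open Filter Topology MeasureTheory Complex
open scoped FourierTransform

noncomputable section

/-- the function of the lattice sum -/
def gg (w : ℝ → ℝ) (α x : ℝ) : ℂ := cexp (I * (α * x : ℝ)) * om w (x : ℝ) ^ 2

theorem gg_rep {w : ℝ → ℝ} (h3 : ∀ z : ℂ, om w z ^ 2 = ∫ v : ℝ, (qh w v : ℂ) * cexp (I * (v * z)))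
    (α x : ℝ) : gg w α x = ∫ v : ℝ, (qh w v : ℂ) * cexp (I * ((α + v) * x : ℝ)) := by
  unfold gg
  rw [h3, ← integral_const_mul]
  congr 1
  funext v
  have : cexp (I * ((α + v) * x : ℝ)) = cexp (I * (α * x : ℝ)) * cexp (I * (v * (x : ℝ))) := by
    rw [← Complex.exp_add]
    congr 1
    push_cast
    ring
  rw [this]
  ring

theorem gg_four {w : ℝ → ℝ} (h3 : ∀ z : ℂ, om w z ^ 2 = ∫ v : ℝ, (qh w v : ℂ) * cexp (I * (v * z)))
    (α y ξ : ℝ) : 𝓕 (fun v : ℝ => (qh w (v - α) : ℂ) * cexp (I * (v * y : ℝ))) ξ =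
      gg w α (y - 2 * Real.pi * ξ) := by
  rw [Real.fourier_real_eq_integral_exp_smul, gg_rep h3,
    ← integral_sub_right_eq_self (fun v : ℝ => (qh w v : ℂ) *
      cexp (I * ((α + v) * (y - 2 * Real.pi * ξ) : ℝ))) α]
  congr 1
  funext v
  have : cexp (I * ((α + (v - α)) * (y - 2 * Real.pi * ξ) : ℝ)) =
      cexp (((-2 * Real.pi * v * ξ : ℝ) : ℂ) * I) * cexp (I * (v * y : ℝ)) := by
    rw [← Complex.exp_add]
    congr 1
    push_cast
    ring
  rw [this, smul_eq_mul]
  ring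

theorem qh_cont {w : ℝ → ℝ} (h1 : ∃ D : ℝ, ∀ x y : ℝ, |qh w x - qh w y| ≤ D * |x - y|) :
    Continuous (qh w) := by
  obtain ⟨D, hD⟩ := h1
  rw [Metric.continuous_iff]
  intro b ε hε
  refine ⟨ε / (|D| + 1), by positivity, fun a ha => ?_⟩
  rw [Real.dist_eq] at ha ⊢
  have h2 : D * |a - b| ≤ |D| * |a - b| := mul_le_mul_of_nonneg_right (le_abs_self D) (abs_nonneg _)
  have h3 : |a - b| * (|D| + 1) < ε := by
    rwa [lt_div_iff₀ (by positivity)] at ha
  have h4 := hD a b
  nlinarith [abs_nonneg (a - b), abs_nonneg D]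

theorem qh_supp {w : ℝ → ℝ} {δ : ℝ} (h : ∀ v : ℝ, 2 * δ ≤ |v| → qh w v = 0) :
    HasCompactSupport (qh w) := by
  refine HasCompactSupport.intro (isCompact_Icc (a := -(2 * δ)) (b := 2 * δ)) fun x hx => ?_
  apply h
  by_contra hc
  rw [not_le, abs_lt] at hc
  exact hx ⟨hc.1.le, hc.2.le⟩

theorem gg_lip {w : ℝ → ℝ} {α δ : ℝ} (hc : Continuous (qh w))
    (h2 : ∀ v : ℝ, 2 * δ ≤ |v| → qh w v = 0)
    (h3 : ∀ z : ℂ, om w z ^ 2 = ∫ v : ℝ, (qh w v : ℂ) * cexp (I * (v * z)))
    (hα1 : 2 * δ < α) (hα2 : α + 2 * δ < 1) (x y : ℝ) :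
    ‖gg w α x - gg w α y‖ ≤ (∫ v : ℝ, |qh w v|) * |x - y| := by
  have hcs := qh_supp h2
  have hint : ∀ x : ℝ, Integrable (fun v : ℝ => (qh w v : ℂ) * cexp (I * ((α + v) * x : ℝ))) := by
    intro x
    apply Continuous.integrable_of_hasCompactSupport
    · exact (Complex.continuous_ofReal.comp hc).mul (by fun_prop)
    · exact HasCompactSupport.mul_right (hcs.comp_left Complex.ofReal_zero)
  rw [gg_rep h3, gg_rep h3, ← integral_sub (hint x) (hint y), ← integral_mul_const]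
  refine norm_integral_le_of_norm_le ?_ (Filter.Eventually.of_forall fun v => ?_)
  · exact ((hc.abs).integrable_of_hasCompactSupport (hcs.comp_left abs_zero)).mul_const _
  · rw [← mul_sub, norm_mul, Complex.norm_real, Real.norm_eq_abs]
    by_cases hv : 2 * δ ≤ |v|
    · rw [h2 v hv]
      simp
    · rw [not_le, abs_lt] at hv
      apply mul_le_mul_of_nonneg_left _ (abs_nonneg _)
      have e1 : cexp (I * ((α + v) * x : ℝ)) - cexp (I * ((α + v) * y : ℝ)) =
          cexp (I * ((α + v) * y : ℝ)) * (cexp (I * (((α + v) * (x - y) : ℝ) : ℂ)) - 1) := by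
        rw [mul_sub, ← Complex.exp_add, mul_one]
        congr 2
        push_cast
        ring
      rw [e1, norm_mul, Complex.norm_exp_I_mul_ofReal, one_mul]
      refine Real.norm_exp_I_mul_ofReal_sub_one_le.trans ?_
      rw [Real.norm_eq_abs, abs_mul, abs_of_pos (show 0 < α + v by linarith)]
      have : (α + v) * |x - y| ≤ 1 * |x - y| :=
        mul_le_mul_of_nonneg_right (by linarith) (abs_nonneg _)
      linarith

theorem gg_bound {δ H C : ℝ} {K : ℕ} {w : ℝ → ℝ} (hH : 1 ≤ H) (hC : 1 ≤ C) (hK : 2 ≤ K)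
    (hw : OmW δ H C K w) (α x : ℝ) : ‖gg w α x‖ ≤ C ^ 2 * (1 + H) ^ 4 / (1 + |x|) ^ 4 := by
  unfold gg
  rw [norm_mul, Complex.norm_exp_I_mul_ofReal, one_mul, norm_pow]
  have hx0 := abs_nonneg x
  rcases le_or_gt |x| H with hx | hx
  · have h1 : ‖om w (x : ℝ)‖ ≤ 1 := by
      obtain ⟨a, b, c⟩ := hw.unit x
      refine (Complex.norm_le_abs_re_add_abs_im _).trans ?_
      rw [a, abs_zero, add_zero, abs_of_nonneg b]
      exact c
    have h2 : ‖om w (x : ℝ)‖ ^ 2 ≤ 1 := pow_le_one₀ (norm_nonneg _) h1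
    refine h2.trans ?_
    rw [one_le_div (by positivity)]
    have h3 : (1 + |x|) ^ 4 ≤ (1 + H) ^ 4 := pow_le_pow_left₀ (by linarith) (by linarith) 4
    have h4 : 1 ≤ C ^ 2 := one_le_pow₀ hC
    nlinarith [pow_pos (show 0 < 1 + H by linarith) 4]
  · have h1 := hw.far (x : ℂ) (by rw [Complex.ofReal_re]; exact hx.le)
    rw [Complex.ofReal_re, Complex.ofReal_im, abs_zero, mul_zero, Real.exp_zero, mul_one] at h1
    have hb : 1 ≤ 1 + (|x| - H) := by linarith
    have h2 : ‖om w (x : ℝ)‖ ≤ C / (1 + (|x| - H)) ^ 2 := by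
      refine h1.trans ?_
      exact div_le_div_of_nonneg_left (by linarith) (by positivity) (pow_le_pow_right₀ hb hK)
    have h3 : ‖om w (x : ℝ)‖ ^ 2 ≤ (C / (1 + (|x| - H)) ^ 2) ^ 2 :=
      pow_le_pow_left₀ (norm_nonneg _) h2 2
    refine h3.trans ?_
    rw [div_pow, ← pow_mul, div_le_div_iff₀ (by positivity) (by positivity)]
    have h4 : (1 + |x|) ^ 4 ≤ ((1 + H) * (1 + (|x| - H))) ^ 4 := by
      apply pow_le_pow_left₀ (by linarith)
      nlinarith
    rw [mul_pow] at h4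
    have h5 : 0 ≤ C ^ 2 := sq_nonneg C
    calc C ^ 2 * (1 + |x|) ^ 4 ≤ C ^ 2 * ((1 + H) ^ 4 * (1 + (|x| - H)) ^ 4) :=
          mul_le_mul_of_nonneg_left h4 h5
      _ = C ^ 2 * (1 + H) ^ 4 * (1 + (|x| - H)) ^ (2 * 2) := by ring

/-- the tail of a quadratically decaying sequence -/
theorem tail_le {B A : ℝ} (hB : 0 ≤ B) (hA : 0 < A) (f : ℕ → ℂ)
    (h : ∀ i : ℕ, ‖f i‖ ≤ B / (A / 2 + (i + 1)) ^ 4) :
    Summable f ∧ ‖∑' i, f i‖ ≤ 4 * B * (∑' i : ℕ, 1 / ((i : ℝ) + 1) ^ 2) / A ^ 2 := by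
  have hs : Summable (fun i : ℕ => 1 / ((i : ℝ) + 1) ^ 2) := by
    have h1 : Summable (fun i : ℕ => 1 / (i : ℝ) ^ 2) := Real.summable_one_div_nat_pow.2 one_lt_two
    have h2 := (summable_nat_add_iff 1).2 h1
    simpa using h2
  have hb : ∀ i : ℕ, ‖f i‖ ≤ 4 * B / A ^ 2 * (1 / ((i : ℝ) + 1) ^ 2) := by
    intro i
    refine (h i).trans ?_
    rw [div_mul_div_comm, mul_one, div_le_div_iff₀ (by positivity) (by positivity)]
    have h1 : A ^ 2 * ((i : ℝ) + 1) ^ 2 ≤ 4 * (A / 2 + (i + 1)) ^ 4 := by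
      have h2 : A / 2 * ((i : ℝ) + 1) ≤ (A / 2 + (i + 1)) ^ 2 := by nlinarith
      have h3 : 0 ≤ A / 2 * ((i : ℝ) + 1) := by positivity
      have h4 := pow_le_pow_left₀ h3 h2 2
      nlinarith
    nlinarith
  have hs2 := hs.mul_left (4 * B / A ^ 2)
  refine ⟨Summable.of_norm_bounded hs2 hb, ?_⟩
  refine (tsum_of_norm_bounded hs2.hasSum hb).trans (le_of_eq ?_)
  rw [tsum_mul_left]
  ring

theorem poisson {w : ℝ → ℝ} {α δ : ℝ} (hc : Continuous (qh w))
    (h2 : ∀ v : ℝ, 2 * δ ≤ |v| → qh w v = 0)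
    (h3 : ∀ z : ℂ, om w z ^ 2 = ∫ v : ℝ, (qh w v : ℂ) * cexp (I * (v * z)))
    (hα1 : 2 * δ < α) (hα2 : α + 2 * δ < 1) (hδ : 0 < δ) (y : ℝ)
    (hs : Summable fun n : ℤ => gg w α (y - 2 * Real.pi * n)) :
    ∑' n : ℤ, gg w α (y - 2 * Real.pi * n) = 0 := by
  have hcont : Continuous (fun v : ℝ => (qh w (v - α) : ℂ) * cexp (I * (v * y : ℝ))) :=
    (Complex.continuous_ofReal.comp (hc.comp (continuous_id.sub continuous_const))).mul
      (by fun_prop)
  have hzero : ∀ v : ℝ, 1 ≤ |v| → (qh w (v - α) : ℂ) * cexp (I * (v * y : ℝ)) = 0 := by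
    intro v hv
    rw [h2, Complex.ofReal_zero, zero_mul]
    rcases le_abs.1 hv with h | h
    · exact le_trans (by linarith) (le_abs_self _)
    · exact le_trans (by linarith) (neg_le_abs _)
  have hO : (fun v : ℝ => (qh w (v - α) : ℂ) * cexp (I * (v * y : ℝ))) =O[cocompact ℝ]
      fun x : ℝ => |x| ^ (-(2 : ℝ)) := by
    have h4 : (fun v : ℝ => (qh w (v - α) : ℂ) * cexp (I * (v * y : ℝ))) =ᶠ[cocompact ℝ]
        fun _ => 0 := by
      have h5 : ∀ᶠ v : ℝ in cocompact ℝ, v ∈ (Set.Icc (-1 : ℝ) 1)ᶜ :=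
        (isCompact_Icc (a := (-1 : ℝ)) (b := 1)).compl_mem_cocompact
      filter_upwards [h5] with v hv
      apply hzero
      by_contra hc
      rw [not_le, abs_lt] at hc
      exact hv ⟨hc.1.le, hc.2.le⟩
    exact h4.trans_isBigO (Asymptotics.isBigO_zero _ _)
  have key := Real.tsum_eq_tsum_fourier_of_rpow_decay_of_summable hcont one_lt_two hO (by
    simp only [gg_four h3]
    exact hs) 0
  simp only [gg_four h3, zero_add] at key
  have h6 : ∀ n : ℤ, fourier n ((0 : ℝ) : UnitAddCircle) = 1 := by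
    intro n
    rw [fourier_coe_apply]
    simp
  simp only [h6, mul_one] at key
  rw [← key]
  have h7 : ∀ n : ℤ, (qh w ((n : ℝ) - α) : ℂ) * cexp (I * ((n : ℝ) * y : ℝ)) = 0 := by
    intro n
    rw [h2, Complex.ofReal_zero, zero_mul]
    rcases le_or_gt n 0 with h | h
    · have : (n : ℝ) ≤ 0 := by exact_mod_cast h
      exact le_trans (by linarith) (neg_le_abs _)
    · have : (1 : ℝ) ≤ n := by exact_mod_cast h
      exact le_trans (by linarith) (le_abs_self _)
  simp only [h7, tsum_zero]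

theorem t_LAT : J_LAT := by
  intro hQH δ H C K w α hδ hδ1 hH hC hK hw hα1 hα2
  obtain ⟨q1, -, q2, q3, -, -⟩ := hQH δ H C K w hδ (by linarith) hH hC hK hw
  have hqc := qh_cont q1
  obtain ⟨D, hDdef⟩ : ∃ D : ℝ, D = ∫ v : ℝ, |qh w v| := ⟨_, rfl⟩
  have hD0 : 0 ≤ D := by rw [hDdef]; exact integral_nonneg fun v => abs_nonneg _
  have hlip := gg_lip hqc q2 q3 hα1 hα2
  rw [← hDdef] at hlip
  obtain ⟨B, hBdef⟩ : ∃ B : ℝ, B = C ^ 2 * (1 + H) ^ 4 := ⟨_, rfl⟩
  have hB0 : 0 ≤ B := by rw [hBdef]; positivity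
  have hbd := gg_bound hH hC hK hw α
  rw [← hBdef] at hbd
  obtain ⟨Z, hZdef⟩ : ∃ Z : ℝ, Z = ∑' i : ℕ, 1 / ((i : ℝ) + 1) ^ 2 := ⟨_, rfl⟩
  have hZ0 : 0 ≤ Z := by rw [hZdef]; exact tsum_nonneg fun i => by positivity
  have hpi := Real.pi_gt_three
  have hpi2 := Real.pi_lt_four
  refine ⟨B + 2 * Real.pi * D + 8 * B * Z, by positivity, ?_⟩
  intro A η n x hA hη hη2 hn hxA hstep hx0 hxn
  have hA2 : 0 < A ^ 2 := by positivity
  -- distances
  have hup : ∀ j, j < n → |x j - x 0 - 2 * Real.pi * j| ≤ 2 * Real.pi * η * j := by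
    intro j
    induction j with
    | zero => intro _; simp
    | succ j ih =>
      intro hj
      have h1 := ih (by omega)
      have h2 := hstep j hj
      have h3 : x (j + 1) - x 0 - 2 * Real.pi * ((j + 1 : ℕ) : ℝ) =
          (x j - x 0 - 2 * Real.pi * j) + (x (j + 1) - x j - 2 * Real.pi) := by
        push_cast
        ring
      rw [h3]
      refine (abs_add_le _ _).trans ?_
      push_cast
      linarith
  have hnA : (n : ℝ) ≤ A := by
    have h1 := hup (n - 1) (by omega)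
    have h2 := abs_le.1 (hxA (n - 1) (by omega))
    have h3 := abs_le.1 (hxA 0 (by omega))
    rw [abs_le] at h1
    have h4 : ((n - 1 : ℕ) : ℝ) = n - 1 := by
      rw [Nat.cast_sub hn]; norm_num
    rw [h4] at h1
    have hn1 : (1 : ℝ) ≤ n := by exact_mod_cast hn
    have h5 : 2 * Real.pi * η * ((n : ℝ) - 1) ≤ 2 * Real.pi * (1 / 2) * ((n : ℝ) - 1) := by
      apply mul_le_mul_of_nonneg_right _ (by linarith)
      nlinarith
    have h6 : 3 * ((n : ℝ) - 1) ≤ Real.pi * (n - 1) :=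
      mul_le_mul_of_nonneg_right hpi.le (by linarith)
    nlinarith [h1.1]
  have hgoal : (∑ j ∈ Finset.range n, cexp (I * (α * x j : ℝ)) * om w (x j : ℝ) ^ 2) =
      ∑ j ∈ Finset.range n, gg w α (x j) := rfl
  rw [hgoal]
  have hright1 : 0 ≤ η * A ^ 2 := by positivity
  have hright2 : 0 ≤ 1 / A ^ 2 := by positivity
  rcases le_or_gt 1 (η * A) with hcase | hcase
  · -- trivial case
    have h1 : ‖∑ j ∈ Finset.range n, gg w α (x j)‖ ≤ n * B := by
      refine (norm_sum_le _ _).trans ?_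
      have h2 : ∀ j ∈ Finset.range n, ‖gg w α (x j)‖ ≤ B := by
        intro j _
        refine (hbd (x j)).trans (div_le_self hB0 ?_)
        exact one_le_pow₀ (by linarith [abs_nonneg (x j)])
      refine (Finset.sum_le_card_nsmul _ _ _ h2).trans (le_of_eq ?_)
      rw [Finset.card_range, nsmul_eq_mul]
    have h2 : (n : ℝ) * B ≤ A * B := mul_le_mul_of_nonneg_right hnA hB0
    have h3 : A ≤ η * A ^ 2 := by nlinarith
    have h4 : A * B ≤ η * A ^ 2 * B := mul_le_mul_of_nonneg_right h3 hB0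
    have h5 : 0 ≤ (2 * Real.pi * D + 8 * B * Z) * (η * A ^ 2 + 1 / A ^ 2) := by positivity
    have h6 : 0 ≤ B * (1 / A ^ 2) := by positivity
    nlinarith
  · -- the lattice
    obtain ⟨y, hy⟩ : ∃ y, y = x 0 := ⟨_, rfl⟩
    rw [← hy] at hup hx0
    have hηn : 2 * Real.pi * η * n ≤ 2 * Real.pi := by
      have h1 : η * n ≤ η * A := mul_le_mul_of_nonneg_left hnA hη.le
      nlinarith
    -- the right part
    have htop : A - 6 * Real.pi ≤ y + 2 * Real.pi * (n - 1) := by
      have h1 := (abs_le.1 (hup (n - 1) (by omega))).2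
      have h4 : ((n - 1 : ℕ) : ℝ) = n - 1 := by
        rw [Nat.cast_sub hn]; norm_num
      rw [h4] at h1
      have h5 : 2 * Real.pi * η * ((n : ℝ) - 1) ≤ 2 * Real.pi := by nlinarith
      linarith
    have hR := tail_le hB0 (by linarith : 0 < A)
      (fun i : ℕ => gg w α (y + 2 * Real.pi * ((i + n : ℕ) : ℝ))) (by
        intro i
        refine (hbd _).trans ?_
        apply div_le_div_of_nonneg_left hB0 (by positivity)
        apply pow_le_pow_left₀ (by positivity)
        have h1 : y + 2 * Real.pi * ((i + n : ℕ) : ℝ) ≤ |y + 2 * Real.pi * ((i + n : ℕ) : ℝ)| :=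
          le_abs_self _
        have h2 : y + 2 * Real.pi * ((i + n : ℕ) : ℝ) =
            (y + 2 * Real.pi * (n - 1)) + 2 * Real.pi * (i + 1) := by
          push_cast
          ring
        have h3 : (3 : ℝ) * (i + 1) ≤ Real.pi * (i + 1) :=
          mul_le_mul_of_nonneg_right hpi.le (by positivity)
        have h4 : (0 : ℝ) ≤ i := Nat.cast_nonneg i
        linarith)
    have hLn := tail_le hB0 (by linarith : 0 < A)
      (fun i : ℕ => gg w α (y - 2 * Real.pi * ((i + 1 : ℕ) : ℝ))) (by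
        intro i
        refine (hbd _).trans ?_
        apply div_le_div_of_nonneg_left hB0 (by positivity)
        apply pow_le_pow_left₀ (by positivity)
        have h1 : -(y - 2 * Real.pi * ((i + 1 : ℕ) : ℝ)) ≤ |y - 2 * Real.pi * ((i + 1 : ℕ) : ℝ)| :=
          neg_le_abs _
        have h3 : (3 : ℝ) * (i + 1) ≤ Real.pi * (i + 1) :=
          mul_le_mul_of_nonneg_right hpi.le (by positivity)
        have h4 : (0 : ℝ) ≤ i := Nat.cast_nonneg i
        push_cast at h1 ⊢
        linarith)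
    rw [← hZdef] at hR hLn
    -- the full sum
    have hfull : ∑' m : ℤ, gg w α (y + 2 * Real.pi * (m : ℝ)) = 0 ∧
        Summable (fun m : ℤ => gg w α (y + 2 * Real.pi * (m : ℝ))) := by
      have hsP : Summable (fun i : ℕ => gg w α (y + 2 * Real.pi * ((i : ℕ) : ℝ))) :=
        (summable_nat_add_iff n).1 hR.1
      have hsum : Summable (fun m : ℤ => gg w α (y + 2 * Real.pi * (m : ℝ))) := by
        apply Summable.of_nat_of_neg_add_one
        · simpa using hsP
        · have h1 := hLn.1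
          refine h1.congr fun i => ?_
          congr 1
          push_cast
          ring
      refine ⟨?_, hsum⟩
      have hsum2 : Summable (fun m : ℤ => gg w α (y - 2 * Real.pi * (m : ℝ))) := by
        have h1 := (Equiv.neg ℤ).summable_iff.2 hsum
        refine h1.congr fun i => ?_
        simp only [Function.comp_apply, Equiv.neg_apply]
        congr 1
        push_cast
        ring
      have h2 := poisson hqc q2 q3 hα1 hα2 hδ y hsum2
      rw [← (Equiv.neg ℤ).tsum_eq] at h2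
      rw [← h2]
      congr 1
      funext m
      simp only [Equiv.neg_apply]
      congr 1
      push_cast
      ring
    have hsplit : (∑ j ∈ Finset.range n, gg w α (y + 2 * Real.pi * (j : ℝ))) =
        -(∑' i : ℕ, gg w α (y + 2 * Real.pi * ((i + n : ℕ) : ℝ))) -
        ∑' i : ℕ, gg w α (y - 2 * Real.pi * ((i + 1 : ℕ) : ℝ)) := by
      have hsP : Summable (fun i : ℕ => gg w α (y + 2 * Real.pi * ((i : ℕ) : ℝ))) :=
        (summable_nat_add_iff n).1 hR.1
      have h1 : ∑' m : ℤ, gg w α (y + 2 * Real.pi * (m : ℝ)) =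
          (∑' i : ℕ, gg w α (y + 2 * Real.pi * ((i : ℕ) : ℝ))) +
          ∑' i : ℕ, gg w α (y - 2 * Real.pi * ((i + 1 : ℕ) : ℝ)) := by
        rw [tsum_of_nat_of_neg_add_one (f := fun m : ℤ => gg w α (y + 2 * Real.pi * (m : ℝ)))]
        · congr 1
          refine tsum_congr fun i => ?_
          congr 1
          push_cast
          ring
        · simpa using hsP
        · have h1 := hLn.1
          refine h1.congr fun i => ?_
          congr 1
          push_cast
          ring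
      rw [hfull.1] at h1
      have h2 := hsP.sum_add_tsum_nat_add n
      rw [← h2] at h1
      linear_combination -h1
    have hcomp : ‖(∑ j ∈ Finset.range n, gg w α (x j)) -
        ∑ j ∈ Finset.range n, gg w α (y + 2 * Real.pi * (j : ℝ))‖ ≤ n * (D * (2 * Real.pi * η * n)) := by
      rw [← Finset.sum_sub_distrib]
      refine (norm_sum_le _ _).trans ?_
      have h2 : ∀ j ∈ Finset.range n, ‖gg w α (x j) - gg w α (y + 2 * Real.pi * (j : ℝ))‖ ≤
          D * (2 * Real.pi * η * n) := by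
        intro j hj
        have hj' := Finset.mem_range.1 hj
        refine (hlip _ _).trans (mul_le_mul_of_nonneg_left ?_ hD0)
        have h3 := hup j hj'
        have h4 : x j - (y + 2 * Real.pi * (j : ℝ)) = x j - y - 2 * Real.pi * j := by ring
        rw [h4]
        refine h3.trans ?_
        apply mul_le_mul_of_nonneg_left _ (by positivity)
        exact_mod_cast hj'.le
      refine (Finset.sum_le_card_nsmul _ _ _ h2).trans (le_of_eq ?_)
      rw [Finset.card_range, nsmul_eq_mul]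
    have hfin : ‖∑ j ∈ Finset.range n, gg w α (x j)‖ ≤ n * (D * (2 * Real.pi * η * n)) +
        4 * B * Z / A ^ 2 + 4 * B * Z / A ^ 2 := by
      have e1 : (∑ j ∈ Finset.range n, gg w α (x j)) = ((∑ j ∈ Finset.range n, gg w α (x j)) -
          ∑ j ∈ Finset.range n, gg w α (y + 2 * Real.pi * (j : ℝ))) +
          (-(∑' i : ℕ, gg w α (y + 2 * Real.pi * ((i + n : ℕ) : ℝ))) -
        ∑' i : ℕ, gg w α (y - 2 * Real.pi * ((i + 1 : ℕ) : ℝ))) := by
        rw [← hsplit]
        ring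
      rw [e1]
      refine (norm_add_le _ _).trans ?_
      have e2 := norm_sub_le (-(∑' i : ℕ, gg w α (y + 2 * Real.pi * ((i + n : ℕ) : ℝ))))
        (∑' i : ℕ, gg w α (y - 2 * Real.pi * ((i + 1 : ℕ) : ℝ)))
      rw [norm_neg] at e2
      linarith [hR.2, hLn.2]
    have hnn : (n : ℝ) * (D * (2 * Real.pi * η * n)) ≤ 2 * Real.pi * D * (η * A ^ 2) := by
      have h1 : (n : ℝ) * n ≤ A * A := mul_le_mul hnA hnA (Nat.cast_nonneg n) (by linarith)
      have h2 : 0 ≤ D * (2 * Real.pi * η) := by positivity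
      calc (n : ℝ) * (D * (2 * Real.pi * η * n)) = D * (2 * Real.pi * η) * (n * n) := by ring
        _ ≤ D * (2 * Real.pi * η) * (A * A) := mul_le_mul_of_nonneg_left h1 h2
        _ = _ := by ring
    have h5 : 4 * B * Z / A ^ 2 = 4 * B * Z * (1 / A ^ 2) := by ring
    rw [h5] at hfin
    have h6 : 0 ≤ B * (η * A ^ 2 + 1 / A ^ 2) := by positivity
    have h7 : 0 ≤ 2 * Real.pi * D * (1 / A ^ 2) := by positivity
    have h8 : 0 ≤ 8 * B * Z * (η * A ^ 2) := by positivity
    nlinarith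

end

end Pool.Agent.Q92.UM6
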