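import Pool.Agent.Q97.UM.Stm13
import Pool.Agent.H370R2.DirGood

set_option autoImplicit false

/-! Job UM6-UGP of helper97: the local zero sum is small where all zeros are good. -/

namespace Pool.Agent.Q92.UM6

open Pool.Agent.Q97.UM
open Filter Topology MeasureTheory Complex
open scoped ComplexConjugate

noncomputable section

/-- the term of the zero sum -/
def tm (w : ℝ → ℝ) (L u t : ℝ) (s : ℂ) : ℂ := cexp (I * u * H370.zz s) *
  om w (L * (H370.zz s - t)) ^ 2 * cexp (-(H370.zz s - t) ^ 2 / 2)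

theorem far_term {δ H C : ℝ} {K : ℕ} {w : ℝ → ℝ} (hH : 1 ≤ H) (hC : 1 ≤ C) (hK : 2 ≤ K)
    (hw : OmW δ H C K w) {α A L t : ℝ} (hα : 0 < α) (hA : 100 ≤ A) (hHA : 2 * H ≤ A) (hL : 1 ≤ L)
    {s : ℂ} (h0 : 0 < s.re) (h1 : s.re < 1) (hs : A < L * |s.im - t|) :
    ‖tm w L (α * L) t s‖ ≤ 32 * C ^ 2 / A ^ 2 * (Real.exp (2 * ((α + 2 * δ) / 2) *
      (L * |s.re - 1 / 2|)) / (1 + L * |s.im - t|) ^ 2) := by
  obtain ⟨X, hX⟩ : ∃ X, X = L * |s.im - t| := ⟨_, rfl⟩
  obtain ⟨Y, hY⟩ : ∃ Y, Y = L * |s.re - 1 / 2| := ⟨_, rfl⟩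
  have hY0 : 0 ≤ Y := by rw [hY]; positivity
  rw [← hX] at hs
  have hzre : ((L : ℂ) * (H370.zz s - t)).re = L * (s.im - t) := by
    rw [Complex.re_ofReal_mul, Complex.sub_re, H370.zz_re, Complex.ofReal_re]
  have hzim : ((L : ℂ) * (H370.zz s - t)).im = -(L * (s.re - 1 / 2)) := by
    rw [Complex.im_ofReal_mul, Complex.sub_im, H370.zz_im, Complex.ofReal_im]
    ring
  have habs1 : |((L : ℂ) * (H370.zz s - t)).re| = X := by
    rw [hzre, abs_mul, abs_of_pos (by linarith : 0 < L), hX]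
  have habs2 : |((L : ℂ) * (H370.zz s - t)).im| = Y := by
    rw [hzim, abs_neg, abs_mul, abs_of_pos (by linarith : 0 < L), hY]
  have e1 : ‖cexp (I * ((α * L : ℝ) : ℂ) * H370.zz s)‖ ≤ Real.exp (α * Y) := by
    rw [Complex.norm_exp, Real.exp_le_exp]
    have h2 : (I * ((α * L : ℝ) : ℂ) * H370.zz s).re = α * L * (s.re - 1 / 2) := by
      rw [mul_assoc, Complex.I_mul_re, Complex.im_ofReal_mul, H370.zz_im]
      ring
    rw [h2, hY]
    have h3 : s.re - 1 / 2 ≤ |s.re - 1 / 2| := le_abs_self _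
    have h4 : 0 ≤ α * L := by positivity
    nlinarith
  have e2 : ‖cexp (-(H370.zz s - t) ^ 2 / 2)‖ ≤ 2 := by
    rw [Complex.norm_exp]
    have h2 : (-(H370.zz s - t) ^ 2 / 2).re = -((s.im - t) ^ 2 - (s.re - 1 / 2) ^ 2) / 2 := by
      have h3 : H370.zz s - t = ⟨s.im - t, -(s.re - 1 / 2)⟩ := by
        apply Complex.ext
        · rw [Complex.sub_re, H370.zz_re, Complex.ofReal_re]
        · rw [Complex.sub_im, H370.zz_im, Complex.ofReal_im]
          simp
      rw [h3, sq]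
      have h4 : ((-((⟨s.im - t, -(s.re - 1 / 2)⟩ : ℂ) * ⟨s.im - t, -(s.re - 1 / 2)⟩) / 2 : ℂ)).re =
          (-((⟨s.im - t, -(s.re - 1 / 2)⟩ : ℂ) * ⟨s.im - t, -(s.re - 1 / 2)⟩)).re / 2 := by
        have h5 : (2 : ℂ) = ((2 : ℝ) : ℂ) := by norm_num
        rw [h5, Complex.div_ofReal_re]
      rw [h4, Complex.neg_re, Complex.mul_re]
      ring
    rw [h2]
    have h3 : (s.re - 1 / 2) ^ 2 ≤ 1 / 4 := by nlinarith
    have h4 : -((s.im - t) ^ 2 - (s.re - 1 / 2) ^ 2) / 2 ≤ 1 / 8 := by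
      have := sq_nonneg (s.im - t)
      linarith
    refine (Real.exp_le_exp.2 h4).trans ?_
    have h5 := Real.add_one_le_exp (-(1 / 8) : ℝ)
    have h6 : Real.exp (1 / 8) * Real.exp (-(1 / 8)) = 1 := by
      rw [← Real.exp_add]; simp
    have h7 := Real.exp_pos (1 / 8)
    nlinarith
  have e3 : ‖om w ((L : ℂ) * (H370.zz s - t))‖ ≤ C * Real.exp (δ * Y) / (1 + (X - H)) ^ 2 := by
    have h2 := hw.far ((L : ℂ) * (H370.zz s - t)) (by rw [habs1]; linarith)
    rw [habs1, habs2] at h2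
    refine h2.trans ?_
    have hb : 1 ≤ 1 + (X - H) := by linarith
    exact div_le_div_of_nonneg_left (by positivity) (by positivity) (pow_le_pow_right₀ hb hK)
  have e4 : ‖om w ((L : ℂ) * (H370.zz s - t))‖ ^ 2 ≤
      16 * C ^ 2 / A ^ 2 * (Real.exp (2 * δ * Y) / (1 + X) ^ 2) := by
    have h2 := pow_le_pow_left₀ (norm_nonneg _) e3 2
    refine h2.trans ?_
    rw [div_pow, mul_pow, ← Real.exp_nat_mul, ← pow_mul]
    have h3 : ((2 : ℕ) : ℝ) * (δ * Y) = 2 * δ * Y := by push_cast; ring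
    rw [h3, div_mul_div_comm, div_le_div_iff₀ (pow_pos (by linarith) _)
      (mul_pos (pow_pos (by linarith) _) (pow_pos (by linarith) _))]
    have h4 : A ^ 2 * (1 + X) ^ 2 ≤ 16 * (1 + (X - H)) ^ (2 * 2) := by
      have h5 : (1 + X) / 2 ≤ 1 + (X - H) := by linarith
      have h6 : ((1 + X) / 2) ^ 4 ≤ (1 + (X - H)) ^ 4 := pow_le_pow_left₀ (by linarith) h5 4
      have h7 : A ^ 2 ≤ (1 + X) ^ 2 := pow_le_pow_left₀ (by linarith) (by linarith) 2
      have h8 : A ^ 2 * (1 + X) ^ 2 ≤ (1 + X) ^ 2 * (1 + X) ^ 2 :=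
        mul_le_mul_of_nonneg_right h7 (sq_nonneg _)
      calc A ^ 2 * (1 + X) ^ 2 ≤ (1 + X) ^ 2 * (1 + X) ^ 2 := h8
        _ = 16 * ((1 + X) / 2) ^ 4 := by ring
        _ ≤ 16 * (1 + (X - H)) ^ 4 := by linarith
    have h5 : 0 ≤ C ^ 2 * Real.exp (2 * δ * Y) := by positivity
    calc C ^ 2 * Real.exp (2 * δ * Y) * (A ^ 2 * (1 + X) ^ 2) ≤
          C ^ 2 * Real.exp (2 * δ * Y) * (16 * (1 + (X - H)) ^ (2 * 2)) :=
          mul_le_mul_of_nonneg_left h4 h5
      _ = _ := by ring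
  unfold tm
  rw [norm_mul, norm_mul, norm_pow, ← hX, ← hY]
  have h2 : Real.exp (2 * ((α + 2 * δ) / 2) * Y) = Real.exp (α * Y) * Real.exp (2 * δ * Y) := by
    rw [← Real.exp_add]
    congr 1
    ring
  rw [h2]
  have h3 : 0 ≤ 16 * C ^ 2 / A ^ 2 * (Real.exp (2 * δ * Y) / (1 + X) ^ 2) := by positivity
  calc ‖cexp (I * ((α * L : ℝ) : ℂ) * H370.zz s)‖ * ‖om w ((L : ℂ) * (H370.zz s - t))‖ ^ 2 *
        ‖cexp (-(H370.zz s - t) ^ 2 / 2)‖ ≤ Real.exp (α * Y) * (16 * C ^ 2 / A ^ 2 *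
          (Real.exp (2 * δ * Y) / (1 + X) ^ 2)) * 2 := by
        apply mul_le_mul _ e2 (norm_nonneg _) (by positivity)
        exact mul_le_mul e1 e4 (by positivity) (Real.exp_pos _).le
    _ = _ := by ring

/-- a good zero is on the line -/
theorem good_line {η T : ℝ} (hT : 16 ≤ T) (hη : η ≤ 1 / 2) {s : ℂ} (hs : s ∈ ZD T)
    (hg : Gd η T s) : s.re = 1 / 2 := by
  by_contra hne
  have hU : 1 ≤ T / 16 := by linarith
  have h1 : (1 - conj s) ∈ ZD T := by
    unfold ZD at hs ⊢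
    rw [H370.mem_Zf H370.good_zeta hU] at hs ⊢
    exact H370.zset_refl H370.good_zeta hU hs
  have h2 : 1 - conj s ≠ s := by
    intro h
    have h3 := congrArg Complex.re h
    rw [Complex.sub_re, Complex.one_re, Complex.conj_re] at h3
    apply hne
    linarith
  have h3 := hg.2.1 _ h1 h2
  rw [Complex.sub_im, Complex.one_im, Complex.conj_im] at h3
  have h4 : 0 < Real.log T := Real.log_pos (by linarith)
  have h5 : 0 < (1 - η) * (2 * Real.pi / Real.log T) :=
    mul_pos (by linarith) (div_pos (by positivity) h4)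
  have h6 : (0 - -s.im) - s.im = 0 := by ring
  rw [h6, abs_zero] at h3
  linarith

/-- the term of a zero on the line -/
theorem tm_line {w : ℝ → ℝ} {L α t : ℝ} {s : ℂ} (hs : s.re = 1 / 2) :
    tm w L (α * L) t s = cexp (I * (α * L * t : ℝ)) *
      ((cexp (I * (α * (L * (s.im - t)) : ℝ)) * om w ((L * (s.im - t) : ℝ)) ^ 2) *
        ((Real.exp (-(s.im - t) ^ 2 / 2) : ℝ) : ℂ)) := by
  have hz : H370.zz s = (s.im : ℂ) := by
    apply Complex.ext
    · rw [H370.zz_re, Complex.ofReal_re]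
    · rw [H370.zz_im, Complex.ofReal_im, hs]
      norm_num
  unfold tm
  rw [hz]
  have h1 : cexp (I * ((α * L : ℝ) : ℂ) * (s.im : ℂ)) =
      cexp (I * (α * L * t : ℝ)) * cexp (I * (α * (L * (s.im - t)) : ℝ)) := by
    rw [← Complex.exp_add]
    congr 1
    push_cast
    ring
  have h2 : (L : ℂ) * ((s.im : ℂ) - t) = ((L * (s.im - t) : ℝ) : ℂ) := by push_cast; ring
  have h3 : cexp (-((s.im : ℂ) - t) ^ 2 / 2) = ((Real.exp (-(s.im - t) ^ 2 / 2) : ℝ) : ℂ) := by
    rw [Complex.ofReal_exp]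
    congr 1
    push_cast
    ring
  rw [h1, h2, h3]
  ring

/-- the sorted list of the ordinates -/
theorem sorted (Γ : Finset ℝ) : ∃ e : ℕ → ℝ, (∀ j < Γ.card, e j ∈ Γ) ∧
    (∀ i j, i < j → j < Γ.card → e i < e j) ∧
    (∀ j, j + 1 < Γ.card → ∀ g ∈ Γ, ¬ (e j < g ∧ g < e (j + 1))) ∧
    (∀ g ∈ Γ, e 0 ≤ g) ∧ (∀ g ∈ Γ, g ≤ e (Γ.card - 1)) ∧
    ∀ f : ℝ → ℂ, ∑ g ∈ Γ, f g = ∑ j ∈ Finset.range Γ.card, f (e j) := by
  classical
  let o := Γ.orderEmbOfFin rfl
  let e : ℕ → ℝ := fun j => if h : j < Γ.card then o ⟨j, h⟩ else 0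
  have he : ∀ j (h : j < Γ.card), e j = o ⟨j, h⟩ := fun j h => dif_pos h
  have hsurj : ∀ g ∈ Γ, ∃ j, ∃ h : j < Γ.card, o ⟨j, h⟩ = g := by
    intro g hg
    have h1 : g ∈ Set.range o := by
      rw [Finset.range_orderEmbOfFin]
      exact hg
    obtain ⟨i, hi⟩ := h1
    exact ⟨i.1, i.2, hi⟩
  refine ⟨e, ?_, ?_, ?_, ?_, ?_, ?_⟩
  · intro j hj
    rw [he j hj]
    exact Finset.orderEmbOfFin_mem _ _ _
  · intro i j hij hj
    rw [he j hj, he i (hij.trans hj)]
    exact o.strictMono hij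
  · rintro j hj g hg ⟨h1, h2⟩
    obtain ⟨i, hi, rfl⟩ := hsurj g hg
    rw [he j (by omega)] at h1
    rw [he (j + 1) hj] at h2
    have h3 : j < i := by
      have := o.lt_iff_lt.1 h1
      exact this
    have h4 : i < j + 1 := by
      have := o.lt_iff_lt.1 h2
      exact this
    omega
  · intro g hg
    obtain ⟨i, hi, rfl⟩ := hsurj g hg
    rw [he 0 (by omega)]
    exact o.monotone (Fin.mk_le_mk.2 (Nat.zero_le _))
  · intro g hg
    obtain ⟨i, hi, rfl⟩ := hsurj g hg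
    rw [he (Γ.card - 1) (by omega)]
    exact o.monotone (Fin.mk_le_mk.2 (by omega))
  · intro f
    rw [← Fin.sum_univ_eq_sum_range (fun j => f (e j))]
    have h1 : ∀ j : Fin Γ.card, f (e j) = f (o j) := by
      intro j
      rw [he j.1 j.2]
    rw [Finset.sum_congr rfl (fun j _ => h1 j)]
    have h2 : Γ = Finset.univ.map o.toEmbedding := by
      apply Finset.coe_injective
      rw [Finset.coe_map, Finset.coe_univ, Set.image_univ]
      exact (Finset.range_orderEmbOfFin Γ rfl).symm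
    conv_lhs => rw [h2]
    rw [Finset.sum_map]
    rfl

theorem t_UGP : J_UGP := by
  intro hLAT δ H C K w α hδ hδ1 hH hC hK hw hα1 hα2
  obtain ⟨C₀, hC₀, hlat⟩ := hLAT δ H C K w α hδ hδ1 hH hC hK hw hα1 hα2
  refine ⟨C₀ + 1 + 32 * C ^ 2, by positivity, ?_⟩
  intro A η hA hHA hη hη2
  have hlog : ∀ᶠ T : ℝ in atTop, A ^ 3 ≤ Real.log T :=
    Real.tendsto_log_atTop.eventually_ge_atTop (A ^ 3)
  filter_upwards [hlog, eventually_ge_atTop 16] with T hTlog hT16
  intro t ht1 ht2 hgood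
  obtain ⟨L, hL⟩ : ∃ L, L = Real.log T := ⟨_, rfl⟩
  have hA3 : A ≤ A ^ 3 := by nlinarith [sq_nonneg A, mul_pos (show 0 < A by linarith) (show 0 < A by linarith)]
  have hLA : A ≤ L := by rw [hL]; linarith
  have hL100 : 100 ≤ L := by linarith
  have hL0 : 0 < L := by linarith
  rw [← hL] at ht1 ht2 hTlog
  have hα : 0 < α := by linarith
  have hpi := Real.pi_gt_three
  have hU1 : 1 ≤ T + 1 := by linarith
  have hU2 : 1 ≤ T / 16 := by linarith
  have hZT : ∀ s : ℂ, s ∈ ZT T ↔ s ∈ H370.zset riemannZeta (T + 1) (2 * T - 1) := by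
    intro s
    unfold ZT
    exact H370.mem_Zf H370.good_zeta hU1
  have hZD : ∀ s : ℂ, s ∈ ZD T ↔ s ∈ H370.zset riemannZeta (T / 16) (16 * T) := by
    intro s
    unfold ZD
    exact H370.mem_Zf H370.good_zeta hU2
  have hsub : ∀ s ∈ ZT T, s ∈ ZD T := by
    intro s hs
    obtain ⟨a, b, c, d, e⟩ := (hZT s).1 hs
    exact (hZD s).2 ⟨a, b, by linarith, by linarith, e⟩
  -- windows
  have hAL : A / L ≤ 1 := by
    rw [div_le_one hL0]
    exact hLA
  have hback : ∀ s ∈ ZD T, |s.im - t| ≤ A / L → s ∈ ZT T := by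
    intro s hs h
    obtain ⟨a, b, c, d, e⟩ := (hZD s).1 hs
    have h1 := abs_le.1 h
    exact (hZT s).2 ⟨a, b, by linarith [h1.1], by linarith [h1.2], e⟩
  have hwin : ∀ s : ℂ, |s.im - t| ≤ A / L ↔ L * |s.im - t| ≤ A := by
    intro s
    rw [le_div_iff₀ hL0, mul_comm]
  have hZt : Zt w T (α * Real.log T) t = ∑ s ∈ ZT T, (mz s : ℂ) * tm w L (α * L) t s := by
    unfold Zt tm
    rw [hL]
  rw [hZt]
  obtain ⟨NR, hNR⟩ : ∃ NR, NR = (ZT T).filter (fun s => |s.im - t| ≤ A / L) := ⟨_, rfl⟩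
  have hmem : ∀ s, s ∈ NR ↔ s ∈ ZT T ∧ |s.im - t| ≤ A / L := by
    intro s
    rw [hNR, Finset.mem_filter]
  have hsplit := Finset.sum_filter_add_sum_filter_not (ZT T) (fun s => |s.im - t| ≤ A / L)
    (fun s => (mz s : ℂ) * tm w L (α * L) t s)
  rw [← hsplit, ← hNR]
  -- the far part
  have hfar : ‖∑ s ∈ (ZT T).filter (fun s => ¬ |s.im - t| ≤ A / L),
      (mz s : ℂ) * tm w L (α * L) t s‖ ≤ 32 * C ^ 2 / A ^ 2 * SS ((α + 2 * δ) / 2) T t := by
    refine (norm_sum_le _ _).trans ?_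
    have h1 : ∀ s ∈ (ZT T).filter (fun s => ¬ |s.im - t| ≤ A / L),
        ‖(mz s : ℂ) * tm w L (α * L) t s‖ ≤ 32 * C ^ 2 / A ^ 2 * ((mz s : ℝ) *
          (Real.exp (2 * ((α + 2 * δ) / 2) * (L * |s.re - 1 / 2|)) /
            (1 + L * |s.im - t|) ^ 2)) := by
      intro s hs
      obtain ⟨h2, h3⟩ := Finset.mem_filter.1 hs
      obtain ⟨a, b, -, -, -⟩ := (hZT s).1 h2
      rw [hwin, not_le] at h3
      rw [norm_mul, Complex.norm_natCast]
      have h4 := far_term hH hC hK hw (t := t) hα hA hHA (by linarith : 1 ≤ L) a b h3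
      have h5 := mul_le_mul_of_nonneg_left h4 (Nat.cast_nonneg (α := ℝ) (mz s))
      refine h5.trans (le_of_eq ?_)
      ring
    refine (Finset.sum_le_sum h1).trans ?_
    rw [← Finset.mul_sum]
    apply mul_le_mul_of_nonneg_left _ (by positivity)
    unfold SS
    rw [← hL]
    apply Finset.sum_le_sum_of_subset_of_nonneg
    · intro s hs
      exact hsub s (Finset.mem_filter.1 hs).1
    · intro s _ _
      positivity
  -- the near part
  have hline : ∀ s ∈ NR, s.re = 1 / 2 ∧ mz s = 1 ∧ Gd η T s := by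
    intro s hs
    obtain ⟨h1, h2⟩ := (hmem s).1 hs
    have h3 := hsub s h1
    have hg := hgood s h3 (by rw [← hL]; exact h2)
    exact ⟨good_line hT16 hη2 h3 hg, hg.1, hg⟩
  have hinj : ∀ s ∈ NR, ∀ s' ∈ NR, s.im = s'.im → s = s' := by
    intro s hs s' hs' h
    exact Complex.ext ((hline s hs).1.trans (hline s' hs').1.symm) h
  have hnear : ‖∑ s ∈ NR, (mz s : ℂ) * tm w L (α * L) t s‖ ≤
      C₀ * (η * A ^ 2 + 1 / A ^ 2) + 1 / A ^ 2 := by
    obtain ⟨Γ, hΓ⟩ : ∃ Γ, Γ = NR.image Complex.im := ⟨_, rfl⟩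
    obtain ⟨e, he1, he2, he3, he4, he5, he6⟩ := sorted Γ
    have hex : ∀ g ∈ Γ, ∃ s ∈ NR, s.im = g := by
      intro g hg
      rw [hΓ, Finset.mem_image] at hg
      exact hg
    have hto : ∀ s ∈ NR, s.im ∈ Γ := by
      intro s hs
      rw [hΓ]
      exact Finset.mem_image_of_mem _ hs
    -- the sum
    have hsum : ∑ s ∈ NR, (mz s : ℂ) * tm w L (α * L) t s = cexp (I * (α * L * t : ℝ)) *
        ∑ j ∈ Finset.range Γ.card, ((cexp (I * (α * (L * (e j - t)) : ℝ)) *
          om w ((L * (e j - t) : ℝ)) ^ 2) * ((Real.exp (-(e j - t) ^ 2 / 2) : ℝ) : ℂ)) := by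
      rw [← he6 (fun g => ((cexp (I * (α * (L * (g - t)) : ℝ)) *
          om w ((L * (g - t) : ℝ)) ^ 2) * ((Real.exp (-(g - t) ^ 2 / 2) : ℝ) : ℂ))), hΓ,
        Finset.sum_image (fun s hs s' hs' h => hinj s hs s' hs' h), Finset.mul_sum]
      refine Finset.sum_congr rfl fun s hs => ?_
      obtain ⟨h1, h2, -⟩ := hline s hs
      rw [h2, tm_line h1, Nat.cast_one, one_mul]
    rw [hsum, norm_mul, Complex.norm_exp_I_mul_ofReal, one_mul]
    obtain ⟨n, hn⟩ : ∃ n, n = Γ.card := ⟨_, rfl⟩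
    rw [← hn] at he1 he2 he3 he5 ⊢
    rcases Nat.eq_zero_or_pos n with h0 | hpos
    · rw [h0, Finset.range_zero, Finset.sum_empty, norm_zero]
      positivity
    -- properties of the list
    have hLabs : ∀ x : ℝ, L * |x| = |L * x| := by
      intro x
      rw [abs_mul, abs_of_pos hL0]
    have hwd : ∀ j < n, |L * (e j - t)| ≤ A := by
      intro j hj
      obtain ⟨s, hs, hs2⟩ := hex _ (he1 j hj)
      have h1 := (hwin s).1 ((hmem s).1 hs).2
      rw [abs_mul, abs_of_pos hL0, ← hs2]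
      exact h1
    have hstep1 : ∀ j, j + 1 < n → (1 - η) * (2 * Real.pi) ≤ L * (e (j + 1) - e j) := by
      intro j hj
      obtain ⟨s, hs, hs2⟩ := hex _ (he1 j (by omega))
      obtain ⟨s', hs', hs2'⟩ := hex _ (he1 (j + 1) hj)
      have hlt := he2 j (j + 1) (by omega) hj
      have hne : s' ≠ s := by
        rintro rfl
        rw [hs2] at hs2'
        rw [hs2'] at hlt
        exact lt_irrefl _ hlt
      have h1 := (hline s hs).2.2.2.1 s' (hsub s' ((hmem s').1 hs').1) hne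
      rw [hs2, hs2', ← hL, abs_of_pos (by linarith)] at h1
      have h2 : (1 - η) * (2 * Real.pi / L) = (1 - η) * (2 * Real.pi) / L := by ring
      rw [h2, div_le_iff₀ hL0] at h1
      linarith
    have hstep2 : ∀ j, j + 1 < n → L * (e (j + 1) - e j) ≤ (1 + η) * (2 * Real.pi) := by
      intro j hj
      obtain ⟨s, hs, hs2⟩ := hex _ (he1 j (by omega))
      obtain ⟨s', hs', h1, h2⟩ := (hline s hs).2.2.2.2.1
      rw [hs2] at h1 h2
      rw [← hL] at h2
      have hlt := he2 j (j + 1) (by omega) hj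
      have h3 : e (j + 1) ≤ s'.im := by
        by_contra hc
        rw [not_le] at hc
        have ha := abs_le.1 (hwd j (by omega))
        have hb := abs_le.1 (hwd (j + 1) hj)
        have h4 : |s'.im - t| ≤ A / L := by
          rw [hwin, hLabs, abs_le]
          constructor
          · have : L * (e j - t) ≤ L * (s'.im - t) := mul_le_mul_of_nonneg_left (by linarith) hL0.le
            linarith [ha.1]
          · have : L * (s'.im - t) ≤ L * (e (j + 1) - t) :=
              mul_le_mul_of_nonneg_left (by linarith) hL0.le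
            linarith [hb.2]
        exact he3 j hj _ (hto s' ((hmem s').2 ⟨hback s' hs' h4, h4⟩)) ⟨h1, hc⟩
      have h5 : e (j + 1) - e j ≤ (1 + η) * (2 * Real.pi) / L := by
        have h6 : (1 + η) * (2 * Real.pi / L) = (1 + η) * (2 * Real.pi) / L := by ring
        rw [h6] at h2
        linarith
      rw [le_div_iff₀ hL0] at h5
      linarith
    have hx0 : L * (e 0 - t) ≤ -A + 4 * Real.pi := by
      obtain ⟨s, hs, hs2⟩ := hex _ (he1 0 hpos)
      obtain ⟨s', hs', h1, h2⟩ := (hline s hs).2.2.2.2.2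
      rw [hs2] at h1 h2
      rw [← hL] at h2
      have h3 : L * (s'.im - t) < -A := by
        by_contra hc
        rw [not_lt] at hc
        have ha := abs_le.1 (hwd 0 hpos)
        have h4 : |s'.im - t| ≤ A / L := by
          rw [hwin, hLabs, abs_le]
          refine ⟨hc, ?_⟩
          have : L * (s'.im - t) ≤ L * (e 0 - t) := mul_le_mul_of_nonneg_left (by linarith) hL0.le
          linarith [ha.2]
        have h5 := he4 _ (hto s' ((hmem s').2 ⟨hback s' hs' h4, h4⟩))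
        linarith
      have h5 : e 0 - s'.im ≤ (1 + η) * (2 * Real.pi) / L := by
        have h6 : (1 + η) * (2 * Real.pi / L) = (1 + η) * (2 * Real.pi) / L := by ring
        rw [h6] at h2
        linarith
      rw [le_div_iff₀ hL0] at h5
      nlinarith
    have hxn : A - 4 * Real.pi ≤ L * (e (n - 1) - t) := by
      obtain ⟨s, hs, hs2⟩ := hex _ (he1 (n - 1) (by omega))
      obtain ⟨s', hs', h1, h2⟩ := (hline s hs).2.2.2.2.1
      rw [hs2] at h1 h2
      rw [← hL] at h2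
      have h3 : A < L * (s'.im - t) := by
        by_contra hc
        rw [not_lt] at hc
        have ha := abs_le.1 (hwd (n - 1) (by omega))
        have h4 : |s'.im - t| ≤ A / L := by
          rw [hwin, hLabs, abs_le]
          refine ⟨?_, hc⟩
          have : L * (e (n - 1) - t) ≤ L * (s'.im - t) :=
            mul_le_mul_of_nonneg_left (by linarith) hL0.le
          linarith [ha.1]
        have h5 := he5 _ (hto s' ((hmem s').2 ⟨hback s' hs' h4, h4⟩))
        linarith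
      have h5 : s'.im - e (n - 1) ≤ (1 + η) * (2 * Real.pi) / L := by
        have h6 : (1 + η) * (2 * Real.pi / L) = (1 + η) * (2 * Real.pi) / L := by ring
        rw [h6] at h2
        linarith
      rw [le_div_iff₀ hL0] at h5
      nlinarith
    have hmain := hlat A η n (fun j => L * (e j - t)) hA hη hη2 hpos hwd (by
      intro j hj
      have h1 := hstep1 j hj
      have h2 := hstep2 j hj
      rw [abs_le]
      constructor
      · linarith
      · linarith) hx0 hxn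
    -- the number of terms
    have hnA : (n : ℝ) ≤ A := by
      have hind : ∀ j, j < n → 3 * (j : ℝ) ≤ L * (e j - t) - L * (e 0 - t) := by
        intro j
        induction j with
        | zero => intro _; simp
        | succ j ih =>
          intro hj
          have h1 := ih (by omega)
          have h2 := hstep1 j hj
          have h3 : 3 ≤ (1 - η) * (2 * Real.pi) := by nlinarith
          push_cast
          linarith
      have h1 := hind (n - 1) (by omega)
      have h2 := (abs_le.1 (hwd (n - 1) (by omega))).2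
      have h3 := (abs_le.1 (hwd 0 hpos)).1
      have h4 : ((n - 1 : ℕ) : ℝ) = n - 1 := by
        rw [Nat.cast_sub hpos]; norm_num
      rw [h4] at h1
      linarith
    -- the Gaussian factor
    have hdiff : ‖(∑ j ∈ Finset.range n, ((cexp (I * (α * (L * (e j - t)) : ℝ)) *
          om w ((L * (e j - t) : ℝ)) ^ 2) * ((Real.exp (-(e j - t) ^ 2 / 2) : ℝ) : ℂ))) -
        ∑ j ∈ Finset.range n, cexp (I * (α * (L * (e j - t)) : ℝ)) *
          om w ((L * (e j - t) : ℝ)) ^ 2‖ ≤ n * (A ^ 2 / L ^ 2) := by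
      rw [← Finset.sum_sub_distrib]
      refine (norm_sum_le _ _).trans ?_
      have h2 : ∀ j ∈ Finset.range n, ‖(cexp (I * (α * (L * (e j - t)) : ℝ)) *
          om w ((L * (e j - t) : ℝ)) ^ 2) * ((Real.exp (-(e j - t) ^ 2 / 2) : ℝ) : ℂ) -
          cexp (I * (α * (L * (e j - t)) : ℝ)) * om w ((L * (e j - t) : ℝ)) ^ 2‖ ≤
          A ^ 2 / L ^ 2 := by
        intro j hj
        have hj' := Finset.mem_range.1 hj
        have e1 : (cexp (I * (α * (L * (e j - t)) : ℝ)) *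
          om w ((L * (e j - t) : ℝ)) ^ 2) * ((Real.exp (-(e j - t) ^ 2 / 2) : ℝ) : ℂ) -
          cexp (I * (α * (L * (e j - t)) : ℝ)) * om w ((L * (e j - t) : ℝ)) ^ 2 =
          (cexp (I * (α * (L * (e j - t)) : ℝ)) * om w ((L * (e j - t) : ℝ)) ^ 2) *
            ((Real.exp (-(e j - t) ^ 2 / 2) - 1 : ℝ) : ℂ) := by
          push_cast
          ring
        rw [e1, norm_mul, norm_mul, Complex.norm_exp_I_mul_ofReal, one_mul, norm_pow,
          Complex.norm_real, Real.norm_eq_abs]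
        have h3 : ‖om w ((L * (e j - t) : ℝ))‖ ≤ 1 := by
          obtain ⟨a, b, c⟩ := hw.unit (L * (e j - t))
          refine (Complex.norm_le_abs_re_add_abs_im _).trans ?_
          rw [a, abs_zero, add_zero, abs_of_nonneg b]
          exact c
        have h4 : ‖om w ((L * (e j - t) : ℝ))‖ ^ 2 ≤ 1 := pow_le_one₀ (norm_nonneg _) h3
        have h5 : |Real.exp (-(e j - t) ^ 2 / 2) - 1| ≤ A ^ 2 / L ^ 2 := by
          have h6 := Real.add_one_le_exp (-(e j - t) ^ 2 / 2)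
          have h7 : Real.exp (-(e j - t) ^ 2 / 2) ≤ 1 := by
            rw [Real.exp_le_one_iff]
            have := sq_nonneg (e j - t)
            linarith
          rw [abs_of_nonpos (by linarith)]
          have h8 : (e j - t) ^ 2 ≤ A ^ 2 / L ^ 2 := by
            rw [le_div_iff₀ (by positivity), ← mul_pow]
            have h9 := hwd j hj'
            rw [mul_comm]
            exact sq_le_sq' (by linarith [(abs_le.1 h9).1]) (by linarith [(abs_le.1 h9).2])
          linarith [sq_nonneg (e j - t)]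
        calc ‖om w ((L * (e j - t) : ℝ))‖ ^ 2 * |Real.exp (-(e j - t) ^ 2 / 2) - 1| ≤
              1 * (A ^ 2 / L ^ 2) := mul_le_mul h4 h5 (abs_nonneg _) zero_le_one
          _ = _ := one_mul _
      refine (Finset.sum_le_card_nsmul _ _ _ h2).trans (le_of_eq ?_)
      rw [Finset.card_range, nsmul_eq_mul]
    have hsmall : (n : ℝ) * (A ^ 2 / L ^ 2) ≤ 1 / A ^ 2 := by
      have h1 : (n : ℝ) * (A ^ 2 / L ^ 2) ≤ A * (A ^ 2 / L ^ 2) :=
        mul_le_mul_of_nonneg_right hnA (by positivity)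
      refine h1.trans ?_
      rw [mul_div_assoc', div_le_div_iff₀ (by positivity) (by positivity)]
      have h2 : (A ^ 3) ^ 2 ≤ L ^ 2 := pow_le_pow_left₀ (by positivity) hTlog 2
      have h3 : A ^ 5 ≤ A ^ 6 := pow_le_pow_right₀ (by linarith) (by norm_num)
      calc A * A ^ 2 * A ^ 2 = A ^ 5 := by ring
        _ ≤ A ^ 6 := h3
        _ = (A ^ 3) ^ 2 := by ring
        _ ≤ 1 * L ^ 2 := by linarith
    obtain ⟨S1, hS1⟩ : ∃ S1, S1 = ∑ j ∈ Finset.range n, ((cexp (I * (α * (L * (e j - t)) : ℝ)) *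
          om w ((L * (e j - t) : ℝ)) ^ 2) * ((Real.exp (-(e j - t) ^ 2 / 2) : ℝ) : ℂ)) := ⟨_, rfl⟩
    obtain ⟨S2, hS2⟩ : ∃ S2, S2 = ∑ j ∈ Finset.range n, cexp (I * (α * (L * (e j - t)) : ℝ)) *
          om w ((L * (e j - t) : ℝ)) ^ 2 := ⟨_, rfl⟩
    rw [← hS1, ← hS2] at hdiff
    rw [← hS1]
    have hmain' : ‖S2‖ ≤ C₀ * (η * A ^ 2 + 1 / A ^ 2) := by
      rw [hS2]
      exact hmain
    have e1 : S1 = (S1 - S2) + S2 := by ring
    rw [e1]
    refine (norm_add_le _ _).trans ?_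
    linarith
  refine (norm_add_le _ _).trans ?_
  have hSS : 0 ≤ SS ((α + 2 * δ) / 2) T t := by
    unfold SS
    apply Finset.sum_nonneg
    intro s _
    positivity
  have h1 : 0 ≤ (1 + 32 * C ^ 2) * (η * A ^ 2) := by positivity
  have h2 : 0 ≤ 32 * C ^ 2 * (1 / A ^ 2) := by positivity
  have h3 : 0 ≤ (C₀ + 1) / A ^ 2 * SS ((α + 2 * δ) / 2) T t := by positivity
  have e2 : (C₀ + 1 + 32 * C ^ 2) / A ^ 2 * SS ((α + 2 * δ) / 2) T t =
      32 * C ^ 2 / A ^ 2 * SS ((α + 2 * δ) / 2) T t +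
      (C₀ + 1) / A ^ 2 * SS ((α + 2 * δ) / 2) T t := by ring
  rw [e2]
  nlinarith

end

end Pool.Agent.Q92.UM6
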